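import Pool.Agent.H67.LW.Fin
import Pool.Agent.Helper45.LW.OR
import Pool.Agent.Helper71.LW.MS
import Pool.Agent.Helper71.LW.PH
import Pool.Agent.Helper27.LW.RD
import Pool.Agent.Helper29.LW.PV
import Pool.Agent.Helper29.LW.OW

/-!
All parts together.
-/

set_option autoImplicit false

namespace LW

open Finset
open Pool.Agent.Helper36.BN (inc cyc bdry)

theorem main_thm (V : Type) [Fintype V] [DecidableEq V] (G : SimpleGraph V) [Fintype G.edgeSet]
    [DecidableEq G.edgeSet] (k : ℕ) (hk : HasTD G k) :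
    ∃ b : Module.Basis (Fin (Module.finrank (ZMod 2) (cyc (gs (G := G)) gt univ))) (ZMod 2)
      (cyc (gs (G := G)) gt univ),
      ∀ e, Nat.card {i // (b i : G.edgeSet → ZMod 2) e ≠ 0} ≤ 158 * (k + 1) :=
  all_thm ms_thm (ow_thm lm_thm) (OR_thm lm_thm (vd_thm lm_thm) oa_thm) rd_thm pv_thm
    (ph_thm lm_thm (vd_thm lm_thm)) V G k hk

end LW
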