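import Pool.Agent.H67.LW.Spec

/-!
Small API.
-/

set_option autoImplicit false

namespace LW

open Finset

section Lk

variable {W : Type} {G : SimpleGraph W} {A B : Finset W} {u v w : W}

theorem Lk.left (h : Lk G A u v) : u ∈ A := h.1

theorem Lk.right (h : Lk G A u v) : v ∈ A := by
  obtain ⟨h1, h2⟩ := h
  induction h2 with
  | refl => exact h1
  | tail _ h _ => exact h.2

theorem Lk.refl (h : u ∈ A) : Lk G A u u := ⟨h, Relation.ReflTransGen.refl⟩

theorem Lk.trans (h : Lk G A u v) (h' : Lk G A v w) : Lk G A u w := ⟨h.1, h.2.trans h'.2⟩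

theorem Lk.tail (h : Lk G A u v) (h' : G.Adj v w) (hw : w ∈ A) : Lk G A u w :=
  ⟨h.1, h.2.tail ⟨h', hw⟩⟩

theorem Lk.of_adj (h : G.Adj u v) (hu : u ∈ A) (hv : v ∈ A) : Lk G A u v :=
  (Lk.refl hu).tail h hv

theorem Lk.symm (h : Lk G A u v) : Lk G A v u := by
  obtain ⟨h1, h2⟩ := h
  induction h2 with
  | refl => exact Lk.refl h1
  | @tail b c hb h ih => exact (Lk.of_adj h.1.symm h.2 (Lk.right ⟨h1, hb⟩)).trans ih

theorem Lk.mono (h : Lk G A u v) (hAB : A ⊆ B) : Lk G B u v :=
  ⟨hAB h.1, Relation.ReflTransGen.mono (fun _ _ h => ⟨h.1, hAB h.2⟩) _ _ h.2⟩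

theorem Lk.mono_adj {G' : SimpleGraph W} (h : Lk G A u v)
    (hG : ∀ x ∈ A, ∀ y ∈ A, G.Adj x y → G'.Adj x y) : Lk G' A u v := by
  obtain ⟨h1, h2⟩ := h
  induction h2 with
  | refl => exact Lk.refl h1
  | @tail b c hb h ih => exact ih.tail (hG b (Lk.right ⟨h1, hb⟩) c h.2 h.1) h.2

/-- induction: a property of `u` that is kept by steps inside `A` holds at `v` -/
theorem Lk.induct {p : W → Prop} (h : Lk G A u v) (hu : p u)
    (hstep : ∀ x ∈ A, ∀ y ∈ A, G.Adj x y → p x → p y) : p v := by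
  obtain ⟨h1, h2⟩ := h
  induction h2 with
  | refl => exact hu
  | @tail b c hb h ih => exact hstep b (Lk.right ⟨h1, hb⟩) c h.2 h.1 ih

/-- a walk from `S` to the outside of `S` contains an edge leaving `S` -/
theorem Lk.exit {S : Finset W} (h : Lk G A u v) (hu : u ∈ S) (hv : v ∉ S) :
    ∃ x ∈ A, ∃ y ∈ A, x ∈ S ∧ y ∉ S ∧ G.Adj x y := by
  by_contra hc
  push Not at hc
  exact hv (h.induct (p := fun x => x ∈ S) hu fun x hx y hy hxy hp => by
    by_contra hy'
    exact hc x hx y hy hp hy' hxy)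

/-- a walk inside `A` from `u` to a member of `S`: there is a first member of `S` -/
theorem Lk.first {S : Finset W} (h : Lk G A u v) (hv : v ∈ S) :
    ∃ x ∈ S, ∃ B : Finset W, B ⊆ A ∧ (∀ y ∈ B, y ∈ S → y = x) ∧ Lk G B u x := by
  classical
  obtain ⟨h1, h2⟩ := h
  revert hv
  induction h2 using Relation.ReflTransGen.head_induction_on with
  | refl =>
    intro hv
    exact ⟨v, hv, {v}, by simpa using h1, by simp, Lk.refl (mem_singleton_self v)⟩
  | @head a c hac _ ih =>
    intro hv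
    by_cases ha : a ∈ S
    · exact ⟨a, ha, {a}, by simpa using h1, by simp, Lk.refl (mem_singleton_self a)⟩
    · obtain ⟨x, hx, B, hB, hBS, hL⟩ := ih hac.2 hv
      refine ⟨x, hx, insert a B, ?_, ?_, ?_⟩
      · intro y hy
        rcases mem_insert.1 hy with h | h
        · rw [h]; exact h1
        · exact hB h
      · intro y hy hyS
        rcases mem_insert.1 hy with h | h
        · exact absurd (h ▸ hyS) ha
        · exact hBS y h hyS
      · have h3 : Lk G (insert a B) c x := hL.mono (subset_insert _ _)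
        exact (Lk.of_adj hac.1 (mem_insert_self _ _) h3.left).trans h3

end Lk

section

variable {V : Type} [Fintype V] {G : SimpleGraph V}

theorem mem_nbr {C : Finset V} {v : V} : v ∈ nbr G C ↔ v ∉ C ∧ ∃ u ∈ C, G.Adj u v := by
  classical
  simp [nbr]

theorem gr_adj {C : Finset V} {u v : V} : (gr G C).Adj u v ↔ G.Adj u v ∧ (u ∈ C ∨ v ∈ C) :=
  Iff.rfl

/-- every vertex of `A` is in a component -/
theorem exists_comp {A : Finset V} {v : V} (hv : v ∈ A) : ∃ D, IsComp G A D ∧ v ∈ D := by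
  classical
  refine ⟨univ.filter fun x => Lk G A v x, ⟨fun x hx => (mem_filter.1 hx).2.right,
    ⟨⟨v, by simp [Lk.refl hv]⟩, ?_⟩, ?_⟩, by simp [Lk.refl hv]⟩
  · have key : ∀ x, Lk G A v x → Lk G (univ.filter fun x => Lk G A v x) v x := by
      intro x hx
      obtain ⟨h1, h2⟩ := hx
      induction h2 with
      | refl => exact Lk.refl (by simp [Lk.refl hv])
      | @tail b c hb h ih =>
        refine ih.tail h.1 ?_
        simp only [mem_filter, mem_univ, true_and]
        exact ⟨h1, hb.tail h⟩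
    intro x hx y hy
    simp only [mem_filter, mem_univ, true_and] at hx hy
    exact (key x hx).symm.trans (key y hy)
  · intro u hu w hw huw
    simp only [mem_filter, mem_univ, true_and] at hu ⊢
    exact hu.tail huw hw

/-- a connected set inside `A` that meets the component `D` is inside `D` -/
theorem IsComp.sub_of_conn {A D S : Finset V} (hD : IsComp G A D) (hS : ConnS G S) (hSA : S ⊆ A)
    {v : V} (hv : v ∈ S) (hvD : v ∈ D) : S ⊆ D := by
  intro x hx
  exact (hS.2 v hv x hx).induct (p := fun x => x ∈ D) hvD fun a _ b hb hab ha =>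
    hD.2.2 a ha b (hSA hb) hab

/-- two components are equal or disjoint -/
theorem IsComp.eq_of_mem {A D D' : Finset V} (hD : IsComp G A D) (hD' : IsComp G A D') {v : V}
    (hv : v ∈ D) (hv' : v ∈ D') : D = D' :=
  Subset.antisymm (hD'.sub_of_conn hD.2.1 hD.1 hv hv') (hD.sub_of_conn hD'.2.1 hD'.1 hv' hv)

variable [DecidableEq V]

theorem mem_Kh {C : Finset V} {h : V} {D : Finset V} {x : V} :
    x ∈ Kh G C h D ↔ Lk (gr G C) (univ \ D) h x := by
  classical
  simp [Kh]

theorem mem_Vh {C : Finset V} {h : V} {D : Finset V} {x : V} :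
    x ∈ Vh G C h D ↔ x ∈ C ∪ nbr G C ∧ ¬ Lk (gr G C) (univ \ D) h x := by
  rw [Vh, mem_sdiff, mem_Kh]

theorem mem_Hang {X : Finset V → Finset V} {P : Finset (Finset V)} {D : Finset V} :
    D ∈ Hang G X P ↔ D ∉ P ∧ ∃ E ∈ P, Child G X E D := by
  classical
  simp [Hang]

end

theorem mem_ed {V : Type} {G : SimpleGraph V} [Fintype G.edgeSet] {C : Finset V}
    {e : G.edgeSet} : e ∈ ed G C ↔ gs e ∈ C ∨ gt e ∈ C := by
  classical
  simp [ed]

theorem gs_gt {V : Type} {G : SimpleGraph V} (e : G.edgeSet) :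
    (e : Sym2 V) = s(gs e, gt e) := (Quot.out_eq (e : Sym2 V)).symm

theorem adj_gs_gt {V : Type} {G : SimpleGraph V} (e : G.edgeSet) : G.Adj (gs e) (gt e) := by
  have h := e.2
  rw [gs_gt e] at h
  exact h

/-- the edge between two adjacent vertices -/
theorem exists_edge {V : Type} {G : SimpleGraph V} {u v : V} (h : G.Adj u v) :
    ∃ e : G.edgeSet, (gs e = u ∧ gt e = v) ∨ (gs e = v ∧ gt e = u) := by
  refine ⟨⟨s(u, v), h⟩, ?_⟩
  have h1 := gs_gt (⟨s(u, v), h⟩ : G.edgeSet)
  rcases Sym2.eq_iff.1 h1 with ⟨h2, h3⟩ | ⟨h2, h3⟩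
  · exact Or.inl ⟨h2.symm, h3.symm⟩
  · exact Or.inr ⟨h3.symm, h2.symm⟩

end LW
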