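import Mathlib
import Pool.Agent.Helper36.BN.Span

/-!
Linear bound for the basis number in terms of the treewidth: definitions.

Multigraphs are given by two maps `s t : E → W` (the ends of the edges); edge vectors are functions
`E → ZMod 2`; `inc s t v e`, `cyc s t F`, `bdry s t f p` are those of `Pool.Agent.Helper36.BN`.
-/

set_option autoImplicit false

namespace LW

open Finset
open Pool.Agent.Helper36.BN (inc cyc bdry)

/-! ### connectivity inside a set -/

/-- `u` and `v` are joined by a walk of `G` all of whose vertices are in `A` -/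
def Lk {W : Type} (G : SimpleGraph W) (A : Finset W) (u v : W) : Prop :=
  u ∈ A ∧ Relation.ReflTransGen (fun x y => G.Adj x y ∧ y ∈ A) u v

/-- nonempty and connected -/
def ConnS {W : Type} (G : SimpleGraph W) (C : Finset W) : Prop :=
  C.Nonempty ∧ ∀ u ∈ C, ∀ v ∈ C, Lk G C u v

/-- `D` is a connected component of `G` induced on `A` -/
def IsComp {W : Type} (G : SimpleGraph W) (A D : Finset W) : Prop :=
  D ⊆ A ∧ ConnS G D ∧ ∀ u ∈ D, ∀ v ∈ A, G.Adj u v → v ∈ D

/-- the vertices outside `C` with a neighbour in `C` -/
noncomputable def nbr {V : Type} [Fintype V] (G : SimpleGraph V) (C : Finset V) : Finset V :=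
  by classical exact univ.filter fun v => v ∉ C ∧ ∃ u ∈ C, G.Adj u v

/-- the graph of all edges of `G` that touch `C` -/
def gr {V : Type} (G : SimpleGraph V) (C : Finset V) : SimpleGraph V where
  Adj u v := G.Adj u v ∧ (u ∈ C ∨ v ∈ C)
  symm := ⟨fun _ _ h => ⟨h.1.symm, h.2.symm⟩⟩
  loopless := ⟨fun _ h => h.1.ne rfl⟩

/-! ### clusters: connected sets of vertices with bags -/

/-- a system of clusters (`Valid`) with bags `X` -/
structure Dec {V : Type} [Fintype V] [DecidableEq V] (G : SimpleGraph V) (k : ℕ)
    (Valid : Finset V → Prop) (X : Finset V → Finset V) : Prop where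
  root : ∀ D, IsComp G univ D → Valid D
  conn : ∀ C, Valid C → ConnS G C
  sub : ∀ C, Valid C → nbr G C ⊆ X C
  sup : ∀ C, Valid C → X C ⊆ C ∪ nbr G C
  meet : ∀ C, Valid C → ∃ v ∈ C, v ∈ X C
  card : ∀ C, Valid C → (X C).card ≤ k + 1
  child : ∀ C, Valid C → ∀ D, IsComp G (C \ X C) D → Valid D

/-- `D` is a child of `C` -/
def Child {V : Type} [DecidableEq V] (G : SimpleGraph V) (X : Finset V → Finset V)
    (C D : Finset V) : Prop := IsComp G (C \ X C) D

/-- `D` is `C` or a descendant of `C` -/
def Desc {V : Type} [DecidableEq V] (G : SimpleGraph V) (X : Finset V → Finset V) :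
    Finset V → Finset V → Prop := Relation.ReflTransGen (Child G X)

/-- a piece below `C`: a set of descendants closed under going up to `C` -/
structure Piece {V : Type} [DecidableEq V] (G : SimpleGraph V) (X : Finset V → Finset V)
    (C : Finset V) (P : Finset (Finset V)) : Prop where
  top : C ∈ P
  desc : ∀ D ∈ P, Desc G X C D
  up : ∀ D ∈ P, ∀ E, Desc G X C E → Desc G X E D → E ∈ P

/-- the clusters hanging from a piece -/
noncomputable def Hang {V : Type} [Fintype V] [DecidableEq V] (G : SimpleGraph V)
    (X : Finset V → Finset V) (P : Finset (Finset V)) : Finset (Finset V) :=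
  by classical exact univ.filter fun D => D ∉ P ∧ ∃ E ∈ P, Child G X E D

/-! ### the far side of a cluster, seen from a vertex `h` of the neighbourhood -/

/-- the vertices joined to `h` by edges touching `C` without using `D` -/
noncomputable def Kh {V : Type} [Fintype V] [DecidableEq V] (G : SimpleGraph V) (C : Finset V)
    (h : V) (D : Finset V) : Finset V :=
  by classical exact univ.filter fun x => Lk (gr G C) (univ \ D) h x

/-- the vertices of `C ∪ nbr C` that are in `D` or separated from `h` by `D` -/
noncomputable def Vh {V : Type} [Fintype V] [DecidableEq V] (G : SimpleGraph V) (C : Finset V)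
    (h : V) (D : Finset V) : Finset V := (C ∪ nbr G C) \ Kh G C h D

/-! ### multigraphs -/

/-- the simple graph of a multigraph -/
def mg {W E : Type} (s t : E → W) : SimpleGraph W where
  Adj u v := u ≠ v ∧ ∃ e, (s e = u ∧ t e = v) ∨ (s e = v ∧ t e = u)
  symm := ⟨fun _ _ h => ⟨h.1.symm, h.2.imp fun _ h => h.symm⟩⟩
  loopless := ⟨fun _ h => h.1 rfl⟩

/-- the number of edges of the vector `x` at the vertex `v` -/
noncomputable def deg {W E : Type} [Fintype E] (s t : E → W) (x : E → ZMod 2) (v : W) : ℕ :=
  by classical exact (univ.filter fun e => x e ≠ 0 ∧ (s e = v ∨ t e = v)).card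

/-- `x` is a path from `a` to `b` (all degrees at most two, odd exactly at `a` and `b`) -/
def PathVec {W E : Type} [DecidableEq W] [Fintype E] (s t : E → W) (a b : W)
    (x : E → ZMod 2) : Prop :=
  (∀ v, ∑ e, x e * inc s t v e = (if v = a then 1 else 0) + (if v = b then 1 else 0)) ∧
    ∀ v, deg s t x v ≤ 2

/-- `x` is an `{a, b}`-join -/
def Join {W E : Type} [DecidableEq W] [Fintype E] (s t : E → W) (a b : W)
    (x : E → ZMod 2) : Prop :=
  ∀ v, ∑ e, x e * inc s t v e = (if v = a then 1 else 0) + (if v = b then 1 else 0)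

/-! ### edges of `G` and the torso of a piece -/

/-- ends of the edges of `G` -/
noncomputable def gs {V : Type} {G : SimpleGraph V} (e : G.edgeSet) : V :=
  (Quot.out (e : Sym2 V)).1

/-- ends of the edges of `G` -/
noncomputable def gt {V : Type} {G : SimpleGraph V} (e : G.edgeSet) : V :=
  (Quot.out (e : Sym2 V)).2

/-- the edges that touch `C` -/
noncomputable def ed {V : Type} (G : SimpleGraph V) [Fintype G.edgeSet] (C : Finset V) :
    Finset G.edgeSet := by classical exact univ.filter fun e => gs e ∈ C ∨ gt e ∈ C

/-- the real edges of a piece: both ends in the bag of a cluster of the piece, one end in it -/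
def Real {V : Type} (G : SimpleGraph V) (X : Finset V → Finset V) (P : Finset (Finset V))
    (e : G.edgeSet) : Prop :=
  ∃ E ∈ P, gs e ∈ X E ∧ gt e ∈ X E ∧ (gs e ∈ E ∨ gt e ∈ E)

/-- the edges of the torso: the real edges, and the stars of the hanging clusters -/
def TE {V : Type} [Fintype V] [DecidableEq V] (G : SimpleGraph V) (X : Finset V → Finset V)
    (P : Finset (Finset V)) : Type :=
  {e : G.edgeSet // Real G X P e} ⊕ {p : Finset V × V // p.1 ∈ Hang G X P ∧ p.2 ∈ nbr G p.1}

noncomputable instance {V : Type} [Fintype V] [DecidableEq V] (G : SimpleGraph V)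
    (X : Finset V → Finset V) (P : Finset (Finset V)) : Fintype (TE G X P) := by
  classical
  unfold TE
  infer_instance

noncomputable instance {V : Type} [Fintype V] [DecidableEq V] (G : SimpleGraph V)
    (X : Finset V → Finset V) (P : Finset (Finset V)) : DecidableEq (TE G X P) :=
  Classical.decEq _

/-- one end of an edge of the torso (the centre `inr D` for the edges of a star) -/
noncomputable def ts {V : Type} [Fintype V] [DecidableEq V] (G : SimpleGraph V)
    (X : Finset V → Finset V) (P : Finset (Finset V)) : TE G X P → V ⊕ Finset V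
  | Sum.inl e => Sum.inl (gs e.1)
  | Sum.inr p => Sum.inr p.1.1

/-- the other end -/
noncomputable def tt {V : Type} [Fintype V] [DecidableEq V] (G : SimpleGraph V)
    (X : Finset V → Finset V) (P : Finset (Finset V)) : TE G X P → V ⊕ Finset V
  | Sum.inl e => Sum.inl (gt e.1)
  | Sum.inr p => Sum.inl p.1.2

/-- the torso has an order of its edges with all boundaries at most `w` in which the edges of
every star are consecutive -/
def GoodOrder {V : Type} [Fintype V] [DecidableEq V] (G : SimpleGraph V)
    (X : Finset V → Finset V) (P : Finset (Finset V)) (w : ℕ) : Prop :=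
  ∃ f : TE G X P → ℕ, Function.Injective f ∧
    (∀ p, (bdry (ts G X P) (tt G X P) f p).card ≤ w) ∧
    ∀ (D : Finset V) (e e' e'' : TE G X P), ts G X P e = Sum.inr D → ts G X P e' = Sum.inr D →
      f e ≤ f e'' → f e'' ≤ f e' → ts G X P e'' = Sum.inr D

/-- `x` passes the hanging cluster `D` -/
def Pass {V : Type} [Fintype V] [DecidableEq V] {G : SimpleGraph V}
    {X : Finset V → Finset V} {P : Finset (Finset V)} (x : TE G X P → ZMod 2)
    (D : Finset V) : Prop := ∃ e, x e ≠ 0 ∧ ts G X P e = Sum.inr D

/-- what is constructed for the cluster `C`: for at most `τ` requests a family generating the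
cycle space of the edges touching `C`, and joins for the requests, every edge used at most
`l` times -/
def Sol {V : Type} [Fintype V] [DecidableEq V] (G : SimpleGraph V) [Fintype G.edgeSet]
    [DecidableEq G.edgeSet] (C : Finset V) (τ l : ℕ) : Prop :=
  ∀ (R : Type) [Fintype R] (a b : R → V), (∀ r, a r ∈ nbr G C ∧ b r ∈ nbr G C ∧ a r ≠ b r) →
    Fintype.card R ≤ τ →
    ∃ (I : Type) (_ : Fintype I) (c : I → G.edgeSet → ZMod 2) (J : R → G.edgeSet → ZMod 2),
      (∀ i, c i ∈ cyc (gs (G := G)) gt (ed G C)) ∧
      cyc (gs (G := G)) gt (ed G C) ≤ Submodule.span (ZMod 2) (Set.range c) ∧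
      (∀ r, (∀ e ∉ ed G C, J r e = 0) ∧ Join (gs (G := G)) gt (a r) (b r) (J r)) ∧
      ∀ e, Nat.card {i // c i e ≠ 0} + Nat.card {r // J r e ≠ 0} ≤ l

end LW
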