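import Pool.Agent.H67.LW.STEP
import Pool.Agent.Helper9.LW.LM
import Pool.Agent.Helper9.LW.OR0
import Pool.Agent.Helper10.LW.BAS
import Pool.Agent.Helper27.LW.ROUTE
import Pool.Agent.Helper33.LW.CN
import Pool.Agent.Helper33.LW.GEN
import Pool.Agent.Helper46.LW.TP
import Pool.Agent.Helper85.LW.VD
import Pool.Agent.Helper89.LW.CT

/-!
Part FIN: everything together.
-/

set_option autoImplicit false

namespace LW

open Finset
open Pool.Agent.Helper36.BN (inc cyc bdry)

theorem sol_thm (hSTEP : S_STEP) : S_SOL := by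
  intro V _ _ G _ _ k Valid X C hDec hC
  induction hn : C.card using Nat.strong_induction_on generalizing C with
  | _ n ih =>
    subst hn
    exact hSTEP V G k Valid X C hDec hC fun D hD hlt => ih D.card hlt D hD rfl

/-- a basis of ply at most `158 (k + 1)` -/
theorem basis_thm (hSOL : S_SOL) (hCT : S_CT) (hGEN : S_GEN) (hBAS : S_BAS)
    (V : Type) [Fintype V] [DecidableEq V] (G : SimpleGraph V) [Fintype G.edgeSet]
    [DecidableEq G.edgeSet] (k : ℕ) (hk : HasTD G k) :
    ∃ b : Module.Basis (Fin (Module.finrank (ZMod 2) (cyc (gs (G := G)) gt univ))) (ZMod 2)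
      (cyc (gs (G := G)) gt univ),
      ∀ e, Nat.card {i // (b i : G.edgeSet → ZMod 2) e ≠ 0} ≤ 158 * (k + 1) := by
  obtain ⟨Valid, X, hDec⟩ := hCT V G k hk
  have h1 : ∀ D, IsComp G univ D → Sol G D 0 (158 * (k + 1)) := by
    intro D hD R _ a b hab hcard
    exact hSOL V G k Valid X D hDec (hDec.root D hD) R a b hab (by omega)
  obtain ⟨I, hI, c, hc, hspan, hload⟩ := hGEN V G (158 * (k + 1)) h1
  exact hBAS G.edgeSet I (cyc (gs (G := G)) gt univ) c (158 * (k + 1)) hc hspan hload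

/-- the remaining hypotheses -/
theorem all_thm (hMS : S_MS) (hOW : S_OW) (hOR : S_OR) (hRD : S_RD) (hPV : S_PV) (hPH : S_PH)
    (V : Type) [Fintype V] [DecidableEq V] (G : SimpleGraph V) [Fintype G.edgeSet]
    [DecidableEq G.edgeSet] (k : ℕ) (hk : HasTD G k) :
    ∃ b : Module.Basis (Fin (Module.finrank (ZMod 2) (cyc (gs (G := G)) gt univ))) (ZMod 2)
      (cyc (gs (G := G)) gt univ),
      ∀ e, Nat.card {i // (b i : G.edgeSet → ZMod 2) e ≠ 0} ≤ 158 * (k + 1) :=
  basis_thm (sol_thm (step_thm hMS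
    (route_thm or0_thm hOR (CN_thm lm_thm hOW) TP_thm hRD hPV hPH) hOW lm_thm))
    ct_thm GEN_thm bas_thm V G k hk

end LW
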