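import Pool.Agent.H67.LW.Base

/-!
Part STEP: the recursion.
-/

set_option autoImplicit false
set_option linter.unusedSectionVars false

namespace LW

open Finset
open Pool.Agent.Helper36.BN (inc cyc bdry)

namespace StepAux

theorem sum_dite_subtype {α M : Type} [Fintype α] [AddCommMonoid M] (p : α → Prop)
    [DecidablePred p] [Fintype {a // p a}] (f : ∀ a, p a → M) :
    ∑ a, (if h : p a then f a h else 0) = ∑ a : {a // p a}, f a.1 a.2 := by
  have h1 : ∑ a : {a // p a}, f a.1 a.2 =
      ∑ a : {a // p a}, (fun a => if h : p a then f a h else 0) a.1 :=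
    sum_congr rfl fun a _ => by simp [a.2]
  rw [h1, ← Finset.sum_subtype (univ.filter p) (by simp) (fun a => if h : p a then f a h else 0),
    Finset.sum_filter_of_ne]
  intro a _ ha
  by_contra hp
  exact ha (by simp [hp])

section

variable {V : Type} [Fintype V] [DecidableEq V] {G : SimpleGraph V}
  {X : Finset V → Finset V} {P : Finset (Finset V)}

/-- a real edge -/
def mkR (e : G.edgeSet) (h : Real G X P e) : TE G X P := Sum.inl ⟨e, h⟩

/-- an edge of a star -/
def mkS (p : Finset V × V) (h : p.1 ∈ Hang G X P ∧ p.2 ∈ nbr G p.1) : TE G X P := Sum.inr ⟨p, h⟩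

theorem ts_mkR (e : G.edgeSet) (h : Real G X P e) : ts G X P (mkR e h) = Sum.inl (gs e) := rfl

theorem tt_mkR (e : G.edgeSet) (h : Real G X P e) : tt G X P (mkR e h) = Sum.inl (gt e) := rfl

theorem ts_mkS (p : Finset V × V) (h : p.1 ∈ Hang G X P ∧ p.2 ∈ nbr G p.1) :
    ts G X P (mkS p h) = Sum.inr p.1 := rfl

theorem tt_mkS (p : Finset V × V) (h : p.1 ∈ Hang G X P ∧ p.2 ∈ nbr G p.1) :
    tt G X P (mkS p h) = Sum.inl p.2 := rfl

theorem TE_cases (e : TE G X P) : (∃ e' h, e = mkR e' h) ∨ ∃ p h, e = mkS p h := by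
  rcases e with e | p
  · exact Or.inl ⟨e.1, e.2, rfl⟩
  · exact Or.inr ⟨p.1, p.2, rfl⟩

theorem mkR_inj {e e' : G.edgeSet} {h : Real G X P e} {h' : Real G X P e'}
    (hh : mkR e h = mkR e' h') : e = e' := by
  have := Sum.inl_injective hh
  exact congrArg Subtype.val this

theorem mkS_inj {p p' : Finset V × V} {h : p.1 ∈ Hang G X P ∧ p.2 ∈ nbr G p.1}
    {h' : p'.1 ∈ Hang G X P ∧ p'.2 ∈ nbr G p'.1} (hh : mkS p h = mkS p' h') : p = p' := by
  have := Sum.inr_injective hh
  exact congrArg Subtype.val this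

open Classical in
theorem sum_TE [Fintype G.edgeSet] {M : Type} [AddCommMonoid M] (g : TE G X P → M) :
    ∑ e, g e = (∑ e : G.edgeSet, if h : Real G X P e then g (mkR e h) else 0) +
      ∑ p : Finset V × V, if h : p.1 ∈ Hang G X P ∧ p.2 ∈ nbr G p.1 then g (mkS p h) else 0 := by
  let φ : TE G X P ≃ ({e : G.edgeSet // Real G X P e} ⊕
      {p : Finset V × V // p.1 ∈ Hang G X P ∧ p.2 ∈ nbr G p.1}) := Equiv.refl _
  rw [← Equiv.sum_comp φ.symm (fun e => g e), Fintype.sum_sum_type]
  congr 1
  · rw [sum_dite_subtype (fun e => Real G X P e) (fun e h => g (mkR e h))]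
    rfl
  · rw [sum_dite_subtype (fun p : Finset V × V => p.1 ∈ Hang G X P ∧ p.2 ∈ nbr G p.1)
      (fun p h => g (mkS p h))]
    rfl

open Classical in
/-- the real coordinates -/
noncomputable def rl (y : TE G X P → ZMod 2) (e : G.edgeSet) : ZMod 2 :=
  if h : Real G X P e then y (mkR e h) else 0

open Classical in
/-- the star coordinates -/
noncomputable def st (y : TE G X P → ZMod 2) (D : Finset V) (v : V) : ZMod 2 :=
  if h : D ∈ Hang G X P ∧ v ∈ nbr G D then y (mkS (D, v) h) else 0

theorem rl_of {y : TE G X P → ZMod 2} {e : G.edgeSet} (h : Real G X P e) :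
    rl y e = y (mkR e h) := by
  unfold rl
  rw [dif_pos h]

theorem rl_not {y : TE G X P → ZMod 2} {e : G.edgeSet} (h : ¬ Real G X P e) :
    rl y e = 0 := by
  unfold rl
  rw [dif_neg h]

theorem st_of {y : TE G X P → ZMod 2} {D : Finset V} {v : V}
    (h : D ∈ Hang G X P ∧ v ∈ nbr G D) : st y D v = y (mkS (D, v) h) := by
  unfold st
  rw [dif_pos h]

theorem st_not {y : TE G X P → ZMod 2} {D : Finset V} {v : V}
    (h : ¬ (D ∈ Hang G X P ∧ v ∈ nbr G D)) : st y D v = 0 := by
  unfold st
  rw [dif_neg h]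

/-- the boundary at an ordinary vertex -/
theorem bd_inl [Fintype G.edgeSet] (y : TE G X P → ZMod 2) (v : V) :
    ∑ e, y e * inc (ts G X P) (tt G X P) (Sum.inl v) e =
      ∑ e : G.edgeSet, rl y e * inc gs gt v e + ∑ D : Finset V, st y D v := by
  classical
  rw [sum_TE]
  congr 1
  · refine sum_congr rfl fun e _ => ?_
    by_cases h : Real G X P e
    · rw [dif_pos h, rl_of h]
      simp [inc, ts_mkR, tt_mkR]
    · rw [dif_neg h, rl_not h, zero_mul]
  · rw [Fintype.sum_prod_type]
    refine sum_congr rfl fun D _ => ?_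
    rw [sum_eq_single v]
    · by_cases h : D ∈ Hang G X P ∧ v ∈ nbr G D
      · rw [dif_pos h, st_of h]
        simp [inc, ts_mkS, tt_mkS]
      · rw [dif_neg h, st_not h]
    · intro u _ huv
      by_cases h : D ∈ Hang G X P ∧ u ∈ nbr G D
      · rw [dif_pos h]
        simp [inc, ts_mkS, tt_mkS, huv]
      · rw [dif_neg h]
    · intro h; exact absurd (mem_univ v) h

/-- the boundary at the centre of a star -/
theorem bd_inr [Fintype G.edgeSet] (y : TE G X P → ZMod 2) (D : Finset V) :
    ∑ e, y e * inc (ts G X P) (tt G X P) (Sum.inr D) e = ∑ v, st y D v := by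
  classical
  rw [sum_TE]
  have h1 : (∑ e : G.edgeSet, if h : Real G X P e then
      y (mkR e h) * inc (ts G X P) (tt G X P) (Sum.inr D) (mkR e h) else 0) = 0 := by
    refine sum_eq_zero fun e _ => ?_
    by_cases h : Real G X P e
    · rw [dif_pos h]
      simp [inc, ts_mkR, tt_mkR]
    · rw [dif_neg h]
  rw [h1, zero_add, Fintype.sum_prod_type, sum_eq_single D]
  · refine sum_congr rfl fun v _ => ?_
    by_cases h : D ∈ Hang G X P ∧ v ∈ nbr G D
    · rw [dif_pos h, st_of h]
      simp [inc, ts_mkS, tt_mkS]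
    · rw [dif_neg h, st_not h]
  · intro D' _ hD
    refine sum_eq_zero fun v _ => ?_
    by_cases h : D' ∈ Hang G X P ∧ v ∈ nbr G D'
    · rw [dif_pos h]
      simp [inc, ts_mkS, tt_mkS, hD]
    · rw [dif_neg h]
  · intro h; exact absurd (mem_univ D) h

/-- the degree at the centre -/
theorem deg_inr (y : TE G X P → ZMod 2) (D : Finset V) :
    deg (ts G X P) (tt G X P) y (Sum.inr D) = (univ.filter fun v => st y D v ≠ 0).card := by
  classical
  unfold deg
  symm
  apply card_bij (fun v (hv : v ∈ univ.filter fun v => st y D v ≠ 0) =>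
    mkS (G := G) (X := X) (P := P) (D, v) (by
      by_contra h
      exact (mem_filter.1 hv).2 (st_not h)))
  · intro v hv
    have h : D ∈ Hang G X P ∧ v ∈ nbr G D := by
      by_contra h
      exact (mem_filter.1 hv).2 (st_not h)
    have h2 := (mem_filter.1 hv).2
    rw [st_of h] at h2
    simp only [mem_filter, mem_univ, true_and]
    exact ⟨h2, Or.inl rfl⟩
  · intro v _ v' _ h
    exact congrArg Prod.snd (mkS_inj h)
  · intro e he
    simp only [mem_filter, mem_univ, true_and] at he
    obtain ⟨h1, h2⟩ := he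
    rcases TE_cases e with ⟨e', h, rfl⟩ | ⟨⟨D', v⟩, h, rfl⟩
    · simp [ts_mkR, tt_mkR] at h2
    · have hD : D' = D := by
        rcases h2 with h2 | h2
        · exact Sum.inr_injective h2
        · simp [tt_mkS] at h2
      subst hD
      refine ⟨v, ?_, rfl⟩
      simp only [mem_filter, mem_univ, true_and]
      rw [st_of h]
      exact h1

/-- a vector of degree at most two at the centre of `D` that passes `D` gives a pair -/
theorem pair [Fintype G.edgeSet] (y : TE G X P → ZMod 2) (D : Finset V)
    (hdeg : deg (ts G X P) (tt G X P) y (Sum.inr D) ≤ 2)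
    (hbd : ∑ e, y e * inc (ts G X P) (tt G X P) (Sum.inr D) e = 0) (hp : Pass y D) :
    ∃ p q : V, p ∈ nbr G D ∧ q ∈ nbr G D ∧ p ≠ q ∧
      ∀ v, st y D v = (if v = p then 1 else 0) + (if v = q then 1 else 0) := by
  classical
  rw [deg_inr] at hdeg
  rw [bd_inr] at hbd
  set T := univ.filter fun v => st y D v ≠ 0 with hT
  have h1 : ∑ v, st y D v = (T.card : ZMod 2) := by
    rw [card_eq_sum_ones, Nat.cast_sum, hT, sum_filter]
    refine sum_congr rfl fun v _ => ?_
    rcases Pool.Agent.Helper36.BN.z2 (st y D v) with h | h <;> simp [h]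
  rw [h1] at hbd
  have h2 : Even T.card := (ZMod.natCast_eq_zero_iff_even).1 hbd
  have h3 : T.Nonempty := by
    obtain ⟨e, he, heD⟩ := hp
    rcases TE_cases e with ⟨e', h, rfl⟩ | ⟨⟨D', v⟩, h, rfl⟩
    · simp [ts_mkR] at heD
    · have hD : D' = D := Sum.inr_injective heD
      subst hD
      refine ⟨v, ?_⟩
      rw [hT, mem_filter, st_of h]
      exact ⟨mem_univ v, he⟩
  have h4 : T.card = 2 := by
    have := card_pos.2 h3
    rcases h2 with ⟨n, hn⟩
    omega
  obtain ⟨p, q, hpq, hTpq⟩ := card_eq_two.1 h4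
  have hmem : ∀ v, v ∈ T → v ∈ nbr G D := by
    intro v hv
    by_contra h
    exact (mem_filter.1 hv).2 (st_not fun h' => h h'.2)
  refine ⟨p, q, hmem p (by rw [hTpq]; simp), hmem q (by rw [hTpq]; simp), hpq, fun v => ?_⟩
  by_cases hv : v ∈ T
  · have h5 : st y D v = 1 := Pool.Agent.Helper36.BN.z2_ne.1 (mem_filter.1 hv).2
    rw [hTpq, mem_insert, mem_singleton] at hv
    rcases hv with rfl | rfl
    · simp [h5, hpq]
    · simp [h5, hpq.symm]
  · have h5 : st y D v = 0 := by
      by_contra h
      exact hv (by rw [hT, mem_filter]; exact ⟨mem_univ v, h⟩)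
    rw [hTpq, mem_insert, mem_singleton, not_or] at hv
    simp [h5, hv.1, hv.2]

theorem st_of_not_pass (y : TE G X P → ZMod 2) (D : Finset V) (hp : ¬ Pass y D) (v : V) :
    st y D v = 0 := by
  by_cases h : D ∈ Hang G X P ∧ v ∈ nbr G D
  · rw [st_of h]
    by_contra h'
    exact hp ⟨_, h', rfl⟩
  · exact st_not h

theorem star_card (D : Finset V) :
    (univ.filter fun e => ts G X P e = Sum.inr D).card ≤ (nbr G D).card := by
  classical
  refine le_trans (card_le_card_of_injOn (t := (nbr G D).image Sum.inl) (fun e => tt G X P e)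
    ?_ ?_) card_image_le
  · intro e he
    have he' : ts G X P e = Sum.inr D := by simpa using he
    rcases TE_cases e with ⟨e', h, rfl⟩ | ⟨⟨D', v⟩, h, rfl⟩
    · simp [ts_mkR] at he'
    · have hD : D' = D := Sum.inr_injective he'
      subst hD
      simp only [tt_mkS]
      exact mem_coe.2 (mem_image_of_mem _ h.2)
  · intro e he e' he' hee
    have h1 : ts G X P e = Sum.inr D := by simpa using he
    have h2 : ts G X P e' = Sum.inr D := by simpa using he'
    rcases TE_cases e with ⟨e₁, h, rfl⟩ | ⟨⟨D₁, v₁⟩, h, rfl⟩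
    · simp [ts_mkR] at h1
    · rcases TE_cases e' with ⟨e₂, h', rfl⟩ | ⟨⟨D₂, v₂⟩, h', rfl⟩
      · simp [ts_mkR] at h2
      · have h3 : D₁ = D := Sum.inr_injective h1
        have h4 : D₂ = D := Sum.inr_injective h2
        have h5 : v₁ = v₂ := Sum.inl_injective hee
        subst h3 h5
        subst h4
        rfl

end

end StepAux

open StepAux

theorem step_thm (hMS : S_MS) (hRT : S_ROUTE) (hOW : S_OW) (hLM : S_LM) : S_STEP := by
  classical
  intro V _ _ G _ _ k Valid X C hDec hC ih R _ a b hab hcard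
  obtain ⟨P, hP, ⟨f, hf, hbd, hstar⟩, x, hx, hpass⟩ :=
    hRT V G k Valid X C R a b hDec hC hab hcard
  obtain ⟨ow1, ow2, ow3, ow4, ow5, ow6⟩ := hOW V G k Valid X C P hDec hC hP
  have hloop : ∀ e, ts G X P e ≠ tt G X P e := by
    intro e h
    rcases TE_cases e with ⟨e', h', rfl⟩ | ⟨p, h', rfl⟩
    · rw [ts_mkR, tt_mkR] at h
      exact (adj_gs_gt e').ne (Sum.inl_injective h)
    · rw [ts_mkS, tt_mkS] at h
      exact Sum.inr_ne_inl h
  obtain ⟨m, c, hc, hspan, hdeg, hblock⟩ := hMS (V ⊕ Finset V) (TE G X P) (ts G X P)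
    (tt G X P) f (6 * (k + 1)) hloop hf hbd
  -- all torso vectors
  let Y : Fin m ⊕ R → TE G X P → ZMod 2 := Sum.elim c x
  have hYdeg : ∀ j v, deg (ts G X P) (tt G X P) (Y j) v ≤ 2 := by
    rintro (i | r) v
    · exact hdeg i v
    · exact (hx r).2 v
  have hYbd : ∀ j (D : Finset V),
      ∑ e, Y j e * inc (ts G X P) (tt G X P) (Sum.inr D) e = 0 := by
    rintro (i | r) D
    · exact (hc i).2 _
    · change ∑ e, x r e * inc (ts G X P) (tt G X P) (Sum.inr D) e = 0
      rw [(hx r).1 (Sum.inr D)]
      simp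
  -- the pairs
  have hpair : ∀ (D : {D // D ∈ Hang G X P}) (j : {j // Pass (Y j) D.1}),
      ∃ p q : V, p ∈ nbr G D.1 ∧ q ∈ nbr G D.1 ∧ p ≠ q ∧
      ∀ v, st (Y j.1) D.1 v = (if v = p then 1 else 0) + (if v = q then 1 else 0) :=
    fun D j => pair (Y j.1) D.1 (hYdeg _ _) (hYbd _ _) j.2
  choose p q hp hq hpq hst using hpair
  -- the solutions below
  have hcount : ∀ D : {D // D ∈ Hang G X P},
      Fintype.card {j // Pass (Y j) D.1} ≤ 151 * (k + 1) := by
    intro D
    rw [← Nat.card_eq_fintype_card,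
      Nat.card_congr (Equiv.subtypeSum (p := fun j => Pass (Y j) D.1)), Nat.card_sum]
    have h1 : Nat.card {i // Pass (Y (Sum.inl i)) D.1} ≤ 7 * (k + 1) := by
      have h2 := hblock (univ.filter fun e => ts G X P e = Sum.inr D.1) (by
        intro e he e' he' e'' h1 h2
        simp only [mem_filter, mem_univ, true_and] at he he' ⊢
        exact hstar D.1 e e' e'' he he' h1 h2)
      have h3 := star_card (G := G) (X := X) (P := P) D.1
      have h4 := (ow6 D.1 D.2).2.2.2.2.1
      have h5 : Nat.card {i // Pass (Y (Sum.inl i)) D.1} =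
          Nat.card {i // ∃ e ∈ univ.filter (fun e => ts G X P e = Sum.inr D.1), c i e ≠ 0} := by
        apply Nat.card_congr
        apply Equiv.subtypeEquivRight
        intro i
        change (∃ e, c i e ≠ 0 ∧ ts G X P e = Sum.inr D.1) ↔ _
        constructor
        · rintro ⟨e, h1, h2⟩
          exact ⟨e, by simp [h2], h1⟩
        · rintro ⟨e, h1, h2⟩
          exact ⟨e, h2, by simpa using h1⟩
      omega
    have h6 := hpass D.1 D.2
    have h7 : Nat.card {r // Pass (Y (Sum.inr r)) D.1} = Nat.card {r // Pass (x r) D.1} := rfl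
    omega
  have hsol : ∀ D : {D // D ∈ Hang G X P}, ∃ (I : Type) (_ : Fintype I)
      (c' : I → G.edgeSet → ZMod 2) (J : {j // Pass (Y j) D.1} → G.edgeSet → ZMod 2),
      (∀ i, c' i ∈ cyc (gs (G := G)) gt (ed G D.1)) ∧
      cyc (gs (G := G)) gt (ed G D.1) ≤ Submodule.span (ZMod 2) (Set.range c') ∧
      (∀ r, (∀ e ∉ ed G D.1, J r e = 0) ∧ Join (gs (G := G)) gt (p D r) (q D r) (J r)) ∧
      ∀ e, Nat.card {i // c' i e ≠ 0} + Nat.card {r // J r e ≠ 0} ≤ 158 * (k + 1) := by
    intro D
    obtain ⟨hV, -, hlt, -⟩ := ow6 D.1 D.2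
    exact ih D.1 hV hlt _ (p D) (q D) (fun r => ⟨hp D r, hq D r, hpq D r⟩) (hcount D)
  choose I hI c' J hc' hspan' hJ hload using hsol
  let Jall : {D // D ∈ Hang G X P} → Fin m ⊕ R → G.edgeSet → ZMod 2 := fun D j =>
    if h : Pass (Y j) D.1 then J D ⟨j, h⟩ else 0
  have hJsupp : ∀ D j e, e ∉ ed G D.1 → Jall D j e = 0 := by
    intro D j e he
    simp only [Jall]
    split_ifs with h
    · exact (hJ D ⟨j, h⟩).1 e he
    · rfl
  have hJbd : ∀ D j v, ∑ e, Jall D j e * inc (gs (G := G)) gt v e = st (Y j) D.1 v := by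
    intro D j v
    simp only [Jall]
    split_ifs with h
    · rw [(hJ D ⟨j, h⟩).2 v, hst D ⟨j, h⟩ v]
    · rw [st_of_not_pass _ _ h]
      simp
  let L : Fin m ⊕ R → G.edgeSet → ZMod 2 := fun j e => rl (Y j) e + ∑ D, Jall D j e
  have hsumst : ∀ (y : TE G X P → ZMod 2) v,
      ∑ D : Finset V, st y D v = ∑ D : {D // D ∈ Hang G X P}, st y D.1 v := by
    intro y v
    rw [← Finset.sum_subtype (Hang G X P) (fun _ => Iff.rfl) (fun D => st y D v)]
    symm
    apply sum_subset (subset_univ _)
    intro D _ hD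
    exact st_not fun h => hD h.1
  have hLbd : ∀ j v, ∑ e, L j e * inc (gs (G := G)) gt v e =
      ∑ e, Y j e * inc (ts G X P) (tt G X P) (Sum.inl v) e := by
    intro j v
    rw [bd_inl, hsumst]
    simp only [L, add_mul, sum_add_distrib, sum_mul]
    congr 1
    rw [sum_comm]
    exact sum_congr rfl fun D _ => hJbd D j v
  -- the partition of the edges
  have pt1 : ∀ e ∈ ed G C, Real G X P e ∨ ∃ D : {D // D ∈ Hang G X P}, e ∈ ed G D.1 := by
    intro e he
    rw [mem_ed] at he
    rcases ow1 (gs e) (gt e) ⟨adj_gs_gt e, he⟩ with h | ⟨D, hD, h⟩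
    · exact Or.inl h
    · exact Or.inr ⟨⟨D, hD⟩, mem_ed.2 h⟩
  have pt2 : ∀ e, Real G X P e → ∀ D : {D // D ∈ Hang G X P}, e ∉ ed G D.1 := by
    rintro e ⟨E, hE, h1, h2, -⟩ D he
    have h3 := ow3 E hE D.1 D.2
    rcases mem_ed.1 he with h | h
    · exact disjoint_left.1 h3 h1 h
    · exact disjoint_left.1 h3 h2 h
  have pt3 : ∀ D D' : {D // D ∈ Hang G X P}, ∀ e, e ∈ ed G D.1 → e ∈ ed G D'.1 → D = D' := by
    intro D D' e h1 h2
    by_contra hne
    obtain ⟨h3, h4⟩ := ow4 D.1 D.2 D'.1 D'.2 fun h => hne (Subtype.ext h)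
    rcases mem_ed.1 h1 with h5 | h5 <;> rcases mem_ed.1 h2 with h6 | h6
    · exact disjoint_left.1 h3 h5 h6
    · exact h4 _ h5 _ h6 (adj_gs_gt e)
    · exact h4 _ h5 _ h6 (adj_gs_gt e).symm
    · exact disjoint_left.1 h3 h5 h6
  have hdescsub : ∀ E ∈ P, E ⊆ C := fun E hE =>
    ((hLM V G k Valid X hDec).1 C E hC (hP.desc E hE)).2.1
  have pt4 : ∀ e, Real G X P e → e ∈ ed G C := by
    rintro e ⟨E, hE, -, -, h⟩
    exact mem_ed.2 (h.imp (fun h => hdescsub E hE h) fun h => hdescsub E hE h)
  have pt5 : ∀ D : {D // D ∈ Hang G X P}, ed G D.1 ⊆ ed G C := by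
    intro D e he
    have h := (ow6 D.1 D.2).2.2.2.1
    exact mem_ed.2 ((mem_ed.1 he).imp (fun h' => h h') fun h' => h h')
  have hL1 : ∀ j e (h : Real G X P e), L j e = Y j (mkR e h) := by
    intro j e h
    simp only [L]
    rw [rl_of h, sum_eq_zero, add_zero]
    intro D _
    exact hJsupp D j e (pt2 e h D)
  have hL2 : ∀ j (D : {D // D ∈ Hang G X P}) e, e ∈ ed G D.1 → L j e = Jall D j e := by
    intro j D e he
    simp only [L]
    rw [rl_not fun h => pt2 e h D he, zero_add, sum_eq_single D]
    · intro D' _ hD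
      exact hJsupp D' j e fun h => hD (pt3 D' D e h he)
    · intro h; exact absurd (mem_univ D) h
  have hL3 : ∀ j e, e ∉ ed G C → L j e = 0 := by
    intro j e he
    simp only [L]
    rw [rl_not fun h => he (pt4 e h), zero_add]
    refine sum_eq_zero fun D _ => hJsupp D j e fun h => he (pt5 D h)
  refine ⟨Fin m ⊕ Σ D, I D, inferInstance, Sum.elim (fun i => L (Sum.inl i)) fun s => c' s.1 s.2,
    fun r => L (Sum.inr r), ?_, ?_, ?_, ?_⟩
  · rintro (i | ⟨D, i⟩)
    · refine ⟨fun e he => hL3 _ e he, fun v => ?_⟩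
      change ∑ e, L (Sum.inl i) e * inc gs gt v e = 0
      rw [hLbd]
      exact (hc i).2 _
    · exact Pool.Agent.Helper36.BN.cyc_mono (pt5 D) (hc' D i)
  · intro z hz
    set F := Sum.elim (fun i => L (Sum.inl i)) fun s : Σ D, I D => c' s.1 s.2 with hF
    -- the boundary of the part of `z` in `D`
    let dz : {D // D ∈ Hang G X P} → V → ZMod 2 := fun D v =>
      ∑ e ∈ ed G D.1, z e * inc (gs (G := G)) gt v e
    have hdz : ∀ D v, v ∉ nbr G D.1 → dz D v = 0 := by
      intro D v hv
      by_cases hvD : v ∈ D.1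
      · have h1 : dz D v = ∑ e, z e * inc (gs (G := G)) gt v e := by
          apply sum_subset (subset_univ _)
          intro e _ he
          have h2 : ¬ (gs e = v ∨ gt e = v) := by
            rintro (h | h)
            · exact he (mem_ed.2 (Or.inl (h ▸ hvD)))
            · exact he (mem_ed.2 (Or.inr (h ▸ hvD)))
          rw [not_or] at h2
          simp [inc, h2.1, h2.2]
        rw [h1]
        exact hz.2 v
      · apply sum_eq_zero
        intro e he
        have h2 : ¬ (gs e = v ∨ gt e = v) := by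
          rintro (h | h)
          · rcases mem_ed.1 he with h' | h'
            · exact hvD (h ▸ h')
            · exact hv (mem_nbr.2 ⟨hvD, _, h', h ▸ (adj_gs_gt e).symm⟩)
          · rcases mem_ed.1 he with h' | h'
            · exact hv (mem_nbr.2 ⟨hvD, _, h', h ▸ adj_gs_gt e⟩)
            · exact hvD (h ▸ h')
        rw [not_or] at h2
        simp [inc, h2.1, h2.2]
    let z' : TE G X P → ZMod 2 := fun e =>
      Sum.elim (fun e : {e : G.edgeSet // Real G X P e} => z e.1)
        (fun p : {p : Finset V × V // p.1 ∈ Hang G X P ∧ p.2 ∈ nbr G p.1} =>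
          dz ⟨p.1.1, p.2.1⟩ p.1.2) e
    have hz'R : ∀ e (h : Real G X P e), z' (mkR e h) = z e := fun e h => rfl
    have hz'S : ∀ p (h : p.1 ∈ Hang G X P ∧ p.2 ∈ nbr G p.1),
        z' (mkS p h) = dz ⟨p.1, h.1⟩ p.2 := fun p h => rfl
    have hz'st : ∀ (D : {D // D ∈ Hang G X P}) v, st z' D.1 v = dz D v := by
      intro D v
      by_cases h : v ∈ nbr G D.1
      · rw [st_of ⟨D.2, h⟩, hz'S]
      · rw [st_not fun h' => h h'.2, hdz D v h]
    have hz'c : z' ∈ cyc (ts G X P) (tt G X P) univ := by
      refine ⟨fun e he => absurd (mem_univ e) he, ?_⟩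
      rintro (v | D)
      · rw [bd_inl, hsumst, ← hz.2 v]
        simp only [hz'st, dz]
        have h1 : ∀ e : G.edgeSet, z e * inc (gs (G := G)) gt v e =
            rl z' e * inc (gs (G := G)) gt v e + ∑ D : {D // D ∈ Hang G X P},
              if e ∈ ed G D.1 then z e * inc (gs (G := G)) gt v e else 0 := by
          intro e
          by_cases h : Real G X P e
          · rw [rl_of h, hz'R, sum_eq_zero, add_zero]
            intro D _
            rw [if_neg (pt2 e h D)]
          · rw [rl_not h, zero_mul, zero_add]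
            by_cases h2 : ∃ D : {D // D ∈ Hang G X P}, e ∈ ed G D.1
            · obtain ⟨D, hD⟩ := h2
              rw [sum_eq_single D]
              · rw [if_pos hD]
              · intro D' _ hD'
                rw [if_neg fun h' => hD' (pt3 D' D e h' hD)]
              · intro h'; exact absurd (mem_univ D) h'
            · have h3 : e ∉ ed G C := fun h' => (pt1 e h').elim h h2
              rw [hz.1 e h3, zero_mul, sum_eq_zero]
              intro D _
              split_ifs <;> rfl
        rw [sum_congr rfl fun e _ => h1 e, sum_add_distrib, sum_comm]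
        congr 1
        refine sum_congr rfl fun D _ => ?_
        rw [← sum_filter]
        congr 1
        ext e; simp
      · rw [bd_inr]
        by_cases hD : D ∈ Hang G X P
        · have h1 : ∀ v, st z' D v = dz ⟨D, hD⟩ v := fun v => hz'st ⟨D, hD⟩ v
          rw [sum_congr rfl fun v _ => h1 v]
          simp only [dz]
          rw [sum_comm]
          refine sum_eq_zero fun e _ => ?_
          rw [← mul_sum, Pool.Agent.Helper36.BN.sum_inc, mul_zero]
        · exact sum_eq_zero fun v _ => st_not fun h => hD h.1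
    obtain ⟨α, hα⟩ := (Submodule.mem_span_range_iff_exists_fun (ZMod 2)).1 (hspan hz'c)
    have hα' : ∀ e, ∑ i, α i * c i e = z' e := by
      intro e
      rw [← hα, Finset.sum_apply]
      rfl
    -- the rest
    let w : G.edgeSet → ZMod 2 := fun e => z e + ∑ i, α i * L (Sum.inl i) e
    have hzw : z = w + ∑ i, α i • L (Sum.inl i) := by
      funext e
      rw [Pi.add_apply, Finset.sum_apply]
      simp only [w, Pi.smul_apply, smul_eq_mul]
      rw [add_assoc, Pool.Agent.Helper36.BN.z2_add_self, add_zero]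
    have hw1 : ∀ e, Real G X P e → w e = 0 := by
      intro e h
      simp only [w]
      have h1 : ∑ i, α i * L (Sum.inl i) e = z e := by
        rw [← hz'R e h, ← hα']
        exact sum_congr rfl fun i _ => by rw [hL1 _ e h]; rfl
      rw [h1, Pool.Agent.Helper36.BN.z2_add_self]
    have hw2 : ∀ e, e ∉ ed G C → w e = 0 := by
      intro e h
      simp only [w]
      rw [hz.1 e h, zero_add]
      exact sum_eq_zero fun i _ => by rw [hL3 _ e h, mul_zero]
    have hw3 : ∀ D : {D // D ∈ Hang G X P}, (fun e => if e ∈ ed G D.1 then w e else 0) ∈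
        cyc (gs (G := G)) gt (ed G D.1) := by
      intro D
      refine ⟨fun e he => if_neg he, fun v => ?_⟩
      have h1 : ∀ i, ∑ e ∈ ed G D.1, L (Sum.inl i) e * inc (gs (G := G)) gt v e =
          st (c i) D.1 v := by
        intro i
        have h2 := hJbd D (Sum.inl i) v
        rw [show st (c i) D.1 v = st (Y (Sum.inl i)) D.1 v from rfl, ← h2]
        rw [← sum_subset (subset_univ (ed G D.1))]
        · exact sum_congr rfl fun e he => by rw [hL2 _ D e he]
        · intro e _ he
          rw [hJsupp D _ e he, zero_mul]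
      have h3 : ∑ e, (if e ∈ ed G D.1 then w e else 0) * inc (gs (G := G)) gt v e =
          dz D v + ∑ i, α i * st (c i) D.1 v := by
        have h4 : ∀ e : G.edgeSet, (if e ∈ ed G D.1 then w e else 0) *
            inc (gs (G := G)) gt v e =
            if e ∈ ed G D.1 then w e * inc (gs (G := G)) gt v e else 0 := by
          intro e; split_ifs <;> simp
        rw [sum_congr rfl fun e _ => h4 e, ← sum_filter]
        have h5 : (univ.filter fun e => e ∈ ed G D.1) = ed G D.1 := by ext e; simp
        rw [h5]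
        simp only [w, add_mul, sum_add_distrib, dz]
        congr 1
        simp only [sum_mul]
        rw [sum_comm]
        refine sum_congr rfl fun i _ => ?_
        rw [← h1 i, mul_sum]
        exact sum_congr rfl fun e _ => by ring
      rw [h3]
      by_cases hv : v ∈ nbr G D.1
      · have h6 : ∑ i, α i * st (c i) D.1 v = dz D v := by
          rw [← hz'st D v, st_of ⟨D.2, hv⟩, ← hα']
          exact sum_congr rfl fun i _ => by rw [st_of ⟨D.2, hv⟩]
        rw [h6, Pool.Agent.Helper36.BN.z2_add_self]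
      · rw [hdz D v hv, zero_add]
        exact sum_eq_zero fun i _ => by rw [st_not fun h' => hv h'.2, mul_zero]
    have hw4 : w = ∑ D : {D // D ∈ Hang G X P}, fun e => if e ∈ ed G D.1 then w e else 0 := by
      funext e
      rw [Finset.sum_apply]
      by_cases h : Real G X P e
      · rw [hw1 e h, sum_eq_zero]
        intro D _; split_ifs <;> rfl
      · by_cases h2 : ∃ D : {D // D ∈ Hang G X P}, e ∈ ed G D.1
        · obtain ⟨D, hD⟩ := h2
          rw [sum_eq_single D]
          · rw [if_pos hD]
          · intro D' _ hD'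
            rw [if_neg fun h' => hD' (pt3 D' D e h' hD)]
          · intro h'; exact absurd (mem_univ D) h'
        · have h3 : e ∉ ed G C := fun h' => (pt1 e h').elim h h2
          rw [hw2 e h3, sum_eq_zero]
          intro D _; split_ifs <;> rfl
    have hw5 : w ∈ Submodule.span (ZMod 2) (Set.range F) := by
      rw [hw4]
      apply Submodule.sum_mem
      intro D _
      have h1 := hspan' D (hw3 D)
      refine Submodule.span_mono ?_ h1
      rintro _ ⟨i, rfl⟩
      exact ⟨Sum.inr ⟨D, i⟩, rfl⟩
    rw [hzw]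
    refine Submodule.add_mem _ hw5 (Submodule.sum_mem _ fun i _ => Submodule.smul_mem _ _ ?_)
    exact Submodule.subset_span ⟨Sum.inl i, rfl⟩
  · intro r
    refine ⟨fun e he => hL3 _ e he, fun v => ?_⟩
    rw [hLbd]
    have h1 := (hx r).1 (Sum.inl v)
    have h2 : ∀ u : V, ((Sum.inl v : V ⊕ Finset V) = Sum.inl u) ↔ v = u := fun u =>
      ⟨fun h => Sum.inl_injective h, fun h => by rw [h]⟩
    simp only [h2] at h1
    exact h1
  · intro e
    have hcardS : ∀ e, Nat.card {i : Fin m ⊕ Σ D, I D // Sum.elim (fun i => L (Sum.inl i))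
        (fun s => c' s.1 s.2) i e ≠ 0} =
        Nat.card {i : Fin m // L (Sum.inl i) e ≠ 0} +
          Nat.card {s : Σ D, I D // c' s.1 s.2 e ≠ 0} := by
      intro e
      rw [Nat.card_congr (Equiv.subtypeSum (p := fun i : Fin m ⊕ Σ D, I D =>
        Sum.elim (fun i => L (Sum.inl i)) (fun s => c' s.1 s.2) i e ≠ 0)), Nat.card_sum]
      rfl
    rw [hcardS]
    change _ + Nat.card {r // L (Sum.inr r) e ≠ 0} ≤ _
    by_cases hR : Real G X P e
    · have h1 : Nat.card {s : Σ D, I D // c' s.1 s.2 e ≠ 0} = 0 := by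
        rw [Nat.card_eq_zero]
        left
        constructor
        rintro ⟨⟨D, i⟩, h⟩
        exact h ((hc' D i).1 e (pt2 e hR D))
      have h2 : Nat.card {i : Fin m // L (Sum.inl i) e ≠ 0} ≤ 6 * (k + 1) + 1 := by
        have h3 := hblock {mkR e hR} (by
          intro e₁ h1 e₂ h2 e₃ h3 h4
          rw [mem_singleton] at h1 h2 ⊢
          subst h1 h2
          exact hf (le_antisymm h4 h3))
        rw [card_singleton] at h3
        refine le_trans (le_of_eq ?_) h3
        apply Nat.card_congr
        apply Equiv.subtypeEquivRight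
        intro i
        rw [hL1 _ e hR]
        simp [Y]
      have h4 : Nat.card {r // L (Sum.inr r) e ≠ 0} ≤ 151 * (k + 1) := by
        refine le_trans ?_ hcard
        rw [← Nat.card_eq_fintype_card]
        exact Nat.card_le_card_of_injective _ Subtype.val_injective
      omega
    · by_cases h2 : ∃ D : {D // D ∈ Hang G X P}, e ∈ ed G D.1
      · obtain ⟨D, hD⟩ := h2
        have h3 : Nat.card {s : Σ D, I D // c' s.1 s.2 e ≠ 0} ≤ Nat.card {i // c' D i e ≠ 0} := by
          let g : {s : Σ D, I D // c' s.1 s.2 e ≠ 0} → {i // c' D i e ≠ 0} := fun s => by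
            have hs : s.1.1 = D := by
              by_contra hne
              exact s.2 ((hc' s.1.1 s.1.2).1 e fun h => hne (pt3 _ _ e h hD))
            exact ⟨hs ▸ s.1.2, by
              obtain ⟨⟨D', i⟩, h⟩ := s
              subst hs
              exact h⟩
          apply Nat.card_le_card_of_injective g
          rintro ⟨⟨D₁, i₁⟩, h₁⟩ ⟨⟨D₂, i₂⟩, h₂⟩ h
          have e1 : D₁ = D := by
            by_contra hne
            exact h₁ ((hc' D₁ i₁).1 e fun h => hne (pt3 _ _ e h hD))
          have e2 : D₂ = D := by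
            by_contra hne
            exact h₂ ((hc' D₂ i₂).1 e fun h => hne (pt3 _ _ e h hD))
          subst e1
          subst e2
          have h' := congrArg Subtype.val h
          simp only [g] at h'
          subst h'
          rfl
        have h4 : Nat.card {i : Fin m // L (Sum.inl i) e ≠ 0} +
            Nat.card {r // L (Sum.inr r) e ≠ 0} ≤ Nat.card {j // J D j e ≠ 0} := by
          rw [← Nat.card_sum]
          have h5 : ∀ j, L j e ≠ 0 → Pass (Y j) D.1 := by
            intro j hj
            rw [hL2 j D e hD] at hj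
            by_contra h
            apply hj
            simp only [Jall]
            rw [dif_neg h]
            rfl
          have h6 : ∀ j (hj : L j e ≠ 0), J D ⟨j, h5 j hj⟩ e ≠ 0 := by
            intro j hj
            have h7 := hL2 j D e hD
            simp only [Jall] at h7
            rw [dif_pos (h5 j hj)] at h7
            rw [← h7]
            exact hj
          let g : {i : Fin m // L (Sum.inl i) e ≠ 0} ⊕ {r // L (Sum.inr r) e ≠ 0} →
              {j // J D j e ≠ 0} := Sum.elim
            (fun i => ⟨⟨Sum.inl i.1, h5 _ i.2⟩, h6 _ i.2⟩)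
            (fun r => ⟨⟨Sum.inr r.1, h5 _ r.2⟩, h6 _ r.2⟩)
          apply Nat.card_le_card_of_injective g
          rintro (i | r) (i' | r') h
          · have := congrArg (fun x => x.1.1) h
            simp only [g, Sum.elim_inl] at this
            rw [Sum.inl_injective.eq_iff] at this
            rw [Subtype.ext this]
          · have := congrArg (fun x => x.1.1) h
            simp [g] at this
          · have := congrArg (fun x => x.1.1) h
            simp [g] at this
          · have := congrArg (fun x => x.1.1) h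
            simp only [g, Sum.elim_inr] at this
            rw [Sum.inr_injective.eq_iff] at this
            rw [Subtype.ext this]
        have h7 := hload D e
        omega
      · have h3 : e ∉ ed G C := fun h' => (pt1 e h').elim hR h2
        have e1 : Nat.card {i : Fin m // L (Sum.inl i) e ≠ 0} = 0 := by
          rw [Nat.card_eq_zero]; left; exact ⟨fun i => i.2 (hL3 _ e h3)⟩
        have e2 : Nat.card {r // L (Sum.inr r) e ≠ 0} = 0 := by
          rw [Nat.card_eq_zero]; left; exact ⟨fun i => i.2 (hL3 _ e h3)⟩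
        have e3 : Nat.card {s : Σ D, I D // c' s.1 s.2 e ≠ 0} = 0 := by
          rw [Nat.card_eq_zero]; left
          exact ⟨fun s => s.2 ((hc' s.1.1 s.1.2).1 e fun h => h2 ⟨_, h⟩)⟩
        omega

end LW
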