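import Pool.Agent.H67.LW.Defs

/-!
Exact statements of all parts (as Props). Deliver `theorem xxx (h : S_DEP) ... : S_XXX`.
-/

set_option autoImplicit false

namespace LW

open Finset
open Pool.Agent.Helper36.BN (inc cyc bdry)

/-- MS: a family of circuits generating the cycle space with few members meeting every block of
consecutive edges. -/
def S_MS : Prop :=
  ∀ (W E : Type) [Fintype W] [DecidableEq W] [Fintype E] [DecidableEq E] (s t : E → W)
    (f : E → ℕ) (w : ℕ), (∀ e, s e ≠ t e) → Function.Injective f →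
    (∀ p, (bdry s t f p).card ≤ w) →
    ∃ (m : ℕ) (c : Fin m → E → ZMod 2), (∀ i, c i ∈ cyc s t univ) ∧
      cyc s t univ ≤ Submodule.span (ZMod 2) (Set.range c) ∧
      (∀ i v, deg s t (c i) v ≤ 2) ∧
      ∀ F : Finset E, (∀ e ∈ F, ∀ e' ∈ F, ∀ e'', f e ≤ f e'' → f e'' ≤ f e' → e'' ∈ F) →
        Nat.card {i // ∃ e ∈ F, c i e ≠ 0} ≤ w + F.card

/-- PV: from connectivity to a path vector. -/
def S_PV : Prop :=
  ∀ (W E : Type) [Fintype W] [DecidableEq W] [Fintype E] [DecidableEq E] (s t : E → W)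
    (A : Finset W) (a b : W), (∀ e, s e ≠ t e) → a ≠ b → Lk (mg s t) A a b →
    ∃ x, PathVec s t a b x ∧ ∀ e, x e ≠ 0 → s e ∈ A ∧ t e ∈ A

/-- TP: two linking sets that share only separating members of `H` (Menger for two paths). -/
def S_TP : Prop :=
  ∀ (W : Type) [Fintype W] [DecidableEq W] (M : SimpleGraph W) (H : Finset W) (a h : W),
    a ∉ H → h ∉ H → Lk M univ a h →
    ∃ P Q : Finset W, Lk M P a h ∧ Lk M Q a h ∧
      ∀ D ∈ H, D ∈ P → D ∈ Q → ¬ Lk M (univ \ {D}) a h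

/-- RD: the counting lemma (random choice of the routes). -/
def S_RD : Prop :=
  ∀ (A H R : Type) [Fintype A] [DecidableEq A] [Fintype H] [DecidableEq H] [Fintype R]
    [DecidableEq R] (k κ κ₁ : ℕ) (a b : R → A) (P : A → Bool → Finset H),
    Fintype.card A ≤ k + 1 → 4 ^ (k + 1) * 2 ^ κ * 7 ^ κ₁ < 8 ^ κ₁ →
    ∃ σ : R → Bool × Bool, ∀ D : H,
      κ₁ ≤ Nat.card {r // (∃ i, D ∉ P (a r) i) ∧ ∃ j, D ∉ P (b r) j} →
      κ ≤ Nat.card {r // D ∉ P (a r) (σ r).1 ∧ D ∉ P (b r) (σ r).2}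

/-- `G` has a tree decomposition of width at most `k`. -/
def HasTD {V : Type} (G : SimpleGraph V) (k : ℕ) : Prop :=
  ∃ (N : Type) (_ : Finite N) (T : SimpleGraph N) (B : N → Finset V), T.IsTree ∧
    (∀ v, (T.induce {x | v ∈ B x}).Connected) ∧
    (∀ v w, G.Adj v w → ∃ x, v ∈ B x ∧ w ∈ B x) ∧
    ∀ x, (B x).card ≤ k + 1

/-- CT: from tree decompositions to systems of clusters. -/
def S_CT : Prop :=
  ∀ (V : Type) [Fintype V] [DecidableEq V] (G : SimpleGraph V) (k : ℕ), HasTD G k →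
    ∃ (Valid : Finset V → Prop) (X : Finset V → Finset V), Dec G k Valid X

/-- LM: the clusters are laminar. -/
def S_LM : Prop :=
  ∀ (V : Type) [Fintype V] [DecidableEq V] (G : SimpleGraph V) (k : ℕ)
    (Valid : Finset V → Prop) (X : Finset V → Finset V), Dec G k Valid X →
    (∀ C D, Valid C → Desc G X C D → Valid D ∧ D ⊆ C ∧ nbr G D ⊆ C ∪ nbr G C ∧
      (D ≠ C → D.card < C.card ∧ Disjoint D (X C))) ∧
    (∀ C D D', Valid C → Desc G X C D → Desc G X C D' →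
      Desc G X D D' ∨ Desc G X D' D ∨ (Disjoint D D' ∧ ∀ u ∈ D, ∀ v ∈ D', ¬ G.Adj u v)) ∧
    (∀ E D, Valid E → Child G X E D → nbr G D ⊆ X E ∧ (nbr G D).Nonempty) ∧
    (∀ C E E' D, Valid C → Desc G X C E → Desc G X C E' → Child G X E D → Child G X E' D →
      E = E') ∧
    (∀ C, Valid C → ∀ u ∈ C ∪ nbr G C, ∀ v ∈ C ∪ nbr G C, Lk (gr G C) univ u v)

/-- OW: every edge and every vertex belongs to exactly one place of a piece. -/
def S_OW : Prop :=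
  ∀ (V : Type) [Fintype V] [DecidableEq V] (G : SimpleGraph V) (k : ℕ)
    (Valid : Finset V → Prop) (X : Finset V → Finset V) (C : Finset V) (P : Finset (Finset V)),
    Dec G k Valid X → Valid C → Piece G X C P →
    (∀ u v, (gr G C).Adj u v → (∃ E ∈ P, u ∈ X E ∧ v ∈ X E ∧ (u ∈ E ∨ v ∈ E)) ∨
      ∃ D ∈ Hang G X P, u ∈ D ∨ v ∈ D) ∧
    (∀ v ∈ C ∪ nbr G C, (∃ E ∈ P, v ∈ X E) ∨ ∃ D ∈ Hang G X P, v ∈ D) ∧
    (∀ E ∈ P, ∀ D ∈ Hang G X P, Disjoint (X E) D) ∧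
    (∀ D ∈ Hang G X P, ∀ D' ∈ Hang G X P, D ≠ D' →
      Disjoint D D' ∧ ∀ u ∈ D, ∀ v ∈ D', ¬ G.Adj u v) ∧
    (∀ E ∈ P, ∀ E' ∈ P, ∀ u v, G.Adj u v → u ∈ X E → v ∈ X E → (u ∈ E ∨ v ∈ E) → u ∈ X E' →
      v ∈ X E' → (u ∈ E' ∨ v ∈ E') → E = E') ∧
    (∀ D ∈ Hang G X P, Valid D ∧ Desc G X C D ∧ D.card < C.card ∧ D ⊆ C ∧
      (nbr G D).card ≤ k + 1 ∧ ∃ E ∈ P, Child G X E D ∧ nbr G D ⊆ X E)

/-- VD: the sides of the clusters seen from `h`. -/
def S_VD : Prop :=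
  ∀ (V : Type) [Fintype V] [DecidableEq V] (G : SimpleGraph V) (k : ℕ)
    (Valid : Finset V → Prop) (X : Finset V → Finset V) (C : Finset V) (h : V),
    Dec G k Valid X → Valid C → h ∈ nbr G C →
    Vh G C h C = (C ∪ nbr G C).erase h ∧
    (∀ D, Desc G X C D → D ⊆ Vh G C h D ∧ h ∉ Vh G C h D) ∧
    (∀ D D', Desc G X C D → Desc G X C D' → D ⊆ D' → Vh G C h D ⊆ Vh G C h D') ∧
    (∀ D, Desc G X C D → ∀ x y, x ∈ Vh G C h D → y ∉ Vh G C h D → (gr G C).Adj x y → x ∈ D) ∧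
    (∀ D D', Desc G X C D → Desc G X C D' → Disjoint D D' →
      (Disjoint (Vh G C h D) (Vh G C h D') ∧
        (∀ x ∈ Vh G C h D, ∀ y ∈ Vh G C h D', ¬ (gr G C).Adj x y)) ∨
      (Vh G C h D' ⊂ Vh G C h D ∧ D' ⊆ Vh G C h D ∧ Disjoint D (Vh G C h D')) ∨
      (Vh G C h D ⊂ Vh G C h D' ∧ D ⊆ Vh G C h D' ∧ Disjoint D' (Vh G C h D)))

/-- OA: lexicographic orders of the edges (abstract). -/
def S_OA : Prop :=
  ∀ (W E : Type) [Fintype W] [DecidableEq W] [Fintype E] [DecidableEq E] (s t : E → W)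
    (κ₁ κ₂ : E → ℕ) (N : ℕ → Finset W) (B : E → Finset W) (n m : ℕ),
    (∀ p, (N p).card ≤ n) → (∀ e, (B e).card ≤ m) →
    (∀ p e e' v, κ₁ e ≤ p → p < κ₁ e' → (s e = v ∨ t e = v) → (s e' = v ∨ t e' = v) →
      v ∈ N p) →
    (∀ e e' e₀ v, κ₁ e = κ₁ e₀ → κ₁ e' = κ₁ e₀ → κ₂ e ≤ κ₂ e₀ → κ₂ e₀ ≤ κ₂ e' →
      (s e = v ∨ t e = v) → (s e' = v ∨ t e' = v) → v ∈ B e₀ ∨ v = s e₀) →
    ∃ f : E → ℕ, Function.Injective f ∧ (∀ p, (bdry s t f p).card ≤ 2 * n + m + 1) ∧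
      ∀ e e', f e ≤ f e' → κ₁ e < κ₁ e' ∨ (κ₁ e = κ₁ e' ∧ κ₂ e ≤ κ₂ e')

/-- OR0: the order for the piece with one cluster. -/
def S_OR0 : Prop :=
  ∀ (V : Type) [Fintype V] [DecidableEq V] (G : SimpleGraph V) (k : ℕ)
    (Valid : Finset V → Prop) (X : Finset V → Finset V) (C : Finset V),
    Dec G k Valid X → Valid C → Piece G X C {C} ∧ GoodOrder G X {C} (6 * (k + 1))

/-- OR: the order for pieces without three pairwise disjoint sides. -/
def S_OR : Prop :=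
  ∀ (V : Type) [Fintype V] [DecidableEq V] (G : SimpleGraph V) (k : ℕ)
    (Valid : Finset V → Prop) (X : Finset V → Finset V) (C : Finset V) (P : Finset (Finset V))
    (h : V), Dec G k Valid X → Valid C → h ∈ nbr G C → Piece G X C P →
    (∀ D₁ ∈ P, ∀ D₂ ∈ P, ∀ D₃ ∈ P, Disjoint (Vh G C h D₁) (Vh G C h D₂) →
      Disjoint (Vh G C h D₁) (Vh G C h D₃) → ¬ Disjoint (Vh G C h D₂) (Vh G C h D₃)) →
    GoodOrder G X P (6 * (k + 1))

/-- CN: connectivity in the torso. -/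
def S_CN : Prop :=
  ∀ (V : Type) [Fintype V] [DecidableEq V] (G : SimpleGraph V) (k : ℕ)
    (Valid : Finset V → Prop) (X : Finset V → Finset V) (C : Finset V) (P : Finset (Finset V)),
    Dec G k Valid X → Valid C → Piece G X C P →
    (∀ a ∈ nbr G C, ∀ b ∈ nbr G C,
      Lk (mg (ts G X P) (tt G X P)) univ (Sum.inl a) (Sum.inl b)) ∧
    ∀ D ∈ Hang G X P, ∀ a ∈ nbr G C, ∀ b ∈ nbr G C, Lk (gr G C) (univ \ D) a b →
      Lk (mg (ts G X P) (tt G X P)) (univ \ {Sum.inr D}) (Sum.inl a) (Sum.inl b)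

/-- PH: the piece of the clusters whose side touches almost all requests. -/
def S_PH : Prop :=
  ∀ (V : Type) [Fintype V] [DecidableEq V] (G : SimpleGraph V) (k : ℕ)
    (Valid : Finset V → Prop) (X : Finset V → Finset V) (C : Finset V) (h : V)
    (R : Type) [Fintype R] (a b : R → V) (q : ℕ), Dec G k Valid X → Valid C → h ∈ nbr G C →
    (∀ r, a r ∈ nbr G C ∧ b r ∈ nbr G C ∧ a r ≠ b r) → 0 < q → 3 * q ≤ Fintype.card R →
    ∃ P : Finset (Finset V), Piece G X C P ∧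
      (∀ D₁ ∈ P, ∀ D₂ ∈ P, ∀ D₃ ∈ P, Disjoint (Vh G C h D₁) (Vh G C h D₂) →
        Disjoint (Vh G C h D₁) (Vh G C h D₃) → ¬ Disjoint (Vh G C h D₂) (Vh G C h D₃)) ∧
      ∀ D ∈ Hang G X P, q ≤ Nat.card {r // a r ∉ Vh G C h D ∧ b r ∉ Vh G C h D}

/-- ROUTE: pieces and routes for the requests. -/
def S_ROUTE : Prop :=
  ∀ (V : Type) [Fintype V] [DecidableEq V] (G : SimpleGraph V) (k : ℕ)
    (Valid : Finset V → Prop) (X : Finset V → Finset V) (C : Finset V)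
    (R : Type) [Fintype R] (a b : R → V), Dec G k Valid X → Valid C →
    (∀ r, a r ∈ nbr G C ∧ b r ∈ nbr G C ∧ a r ≠ b r) → Fintype.card R ≤ 151 * (k + 1) →
    ∃ P : Finset (Finset V), Piece G X C P ∧ GoodOrder G X P (6 * (k + 1)) ∧
      ∃ x : R → TE G X P → ZMod 2,
        (∀ r, PathVec (ts G X P) (tt G X P) (Sum.inl (a r)) (Sum.inl (b r)) (x r)) ∧
        ∀ D ∈ Hang G X P, Nat.card {r // Pass (x r) D} ≤ 144 * (k + 1)

/-- STEP: the recursion. -/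
def S_STEP : Prop :=
  ∀ (V : Type) [Fintype V] [DecidableEq V] (G : SimpleGraph V) [Fintype G.edgeSet]
    [DecidableEq G.edgeSet] (k : ℕ)
    (Valid : Finset V → Prop) (X : Finset V → Finset V) (C : Finset V),
    Dec G k Valid X → Valid C →
    (∀ D, Valid D → D.card < C.card → Sol G D (151 * (k + 1)) (158 * (k + 1))) →
    Sol G C (151 * (k + 1)) (158 * (k + 1))

/-- SOL: all clusters. -/
def S_SOL : Prop :=
  ∀ (V : Type) [Fintype V] [DecidableEq V] (G : SimpleGraph V) [Fintype G.edgeSet]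
    [DecidableEq G.edgeSet] (k : ℕ)
    (Valid : Finset V → Prop) (X : Finset V → Finset V) (C : Finset V),
    Dec G k Valid X → Valid C → Sol G C (151 * (k + 1)) (158 * (k + 1))

/-- GEN: from the components to a basis of the whole cycle space of small ply. -/
def S_GEN : Prop :=
  ∀ (V : Type) [Fintype V] [DecidableEq V] (G : SimpleGraph V) [Fintype G.edgeSet]
    [DecidableEq G.edgeSet] (l : ℕ),
    (∀ D, IsComp G univ D → Sol G D 0 l) →
    ∃ (I : Type) (_ : Fintype I) (c : I → G.edgeSet → ZMod 2),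
      (∀ i, c i ∈ cyc (gs (G := G)) gt univ) ∧
      cyc (gs (G := G)) gt univ ≤ Submodule.span (ZMod 2) (Set.range c) ∧
      ∀ e, Nat.card {i // c i e ≠ 0} ≤ l

/-- BAS: a generating family of ply at most `l` contains a basis of ply at most `l`. -/
def S_BAS : Prop :=
  ∀ (E I : Type) [Fintype E] [DecidableEq E] [Fintype I]
    (Z : Submodule (ZMod 2) (E → ZMod 2)) (c : I → E → ZMod 2) (l : ℕ),
    (∀ i, c i ∈ Z) → Z ≤ Submodule.span (ZMod 2) (Set.range c) →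
    (∀ e, Nat.card {i // c i e ≠ 0} ≤ l) →
    ∃ b : Module.Basis (Fin (Module.finrank (ZMod 2) Z)) (ZMod 2) Z,
      ∀ e, Nat.card {i // (b i : E → ZMod 2) e ≠ 0} ≤ l

end LW
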